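import Pool.Agent.helper90.FN.Spec

set_option autoImplicit false
set_option linter.unusedSectionVars false

open scoped BigOperators Topology

namespace Pool.Agent.helper90.FN

open Finset
open Pool.Agent.helper72.UT (IsFor dep pth rt fors Reg lz rt_mem dep_mem pth_mem rt_not_mem
  dep_not_mem pth_not_mem self_mem_pth mem_fors pth_length)
open Pool.Agent.helper20.HP (ind)

lemma EB_ind_nonneg (p : Prop) : 0 ≤ ind p := by
  unfold ind; split_ifs <;> norm_num

lemma EB_ind_le_one (p : Prop) : ind p ≤ 1 := by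
  unfold ind; split_ifs <;> norm_num

lemma EB_ind_true {p : Prop} (h : p) : ind p = 1 := by
  unfold ind; rw [if_pos h]

lemma EB_ind_false {p : Prop} (h : ¬ p) : ind p = 0 := by
  unfold ind; rw [if_neg h]

lemma EB_ind_congr {p q : Prop} (h : p ↔ q) : ind p = ind q := by
  by_cases hp : p
  · rw [EB_ind_true hp, EB_ind_true (h.1 hp)]
  · rw [EB_ind_false hp, EB_ind_false (fun hq => hp (h.2 hq))]

lemma EB_ind_mono {p q : Prop} (h : p → q) : ind p ≤ ind q := by
  by_cases hp : p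
  · rw [EB_ind_true hp, EB_ind_true (h hp)]
  · rw [EB_ind_false hp]; exact EB_ind_nonneg q

variable {V : Type} [Fintype V] [DecidableEq V]

lemma EB_EF_mono {G : SimpleGraph V} {B : Finset V} {F F' : (V → V) → ℝ}
    (h : ∀ f ∈ fors G B, F f ≤ F' f) : EF G B F ≤ EF G B F' := by
  unfold EF
  exact div_le_div_of_nonneg_right (Finset.sum_le_sum h) (Nat.cast_nonneg _)

lemma EB_EF_mul {G : SimpleGraph V} {B : Finset V} (c : ℝ) (F : (V → V) → ℝ) :
    EF G B (fun f => c * F f) = c * EF G B F := by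
  unfold EF
  rw [← Finset.mul_sum, mul_div_assoc]

lemma EB_EF_sum {G : SimpleGraph V} {B : Finset V} {ι : Type} (s : Finset ι)
    (F : ι → (V → V) → ℝ) :
    EF G B (fun f => ∑ i ∈ s, F i f) = ∑ i ∈ s, EF G B (F i) := by
  unfold EF
  rw [Finset.sum_comm, Finset.sum_div]

/-- the top is unique -/
lemma EB_top {G : SimpleGraph V} {C : Finset V} {f : V → V} (hf : IsFor G C f) (v : V) :
    (v ∈ C → ∀ x, ¬ (x ∉ C ∧ f x ∈ C ∧ x ∈ pth C f v)) ∧
    (∀ x y, (x ∉ C ∧ f x ∈ C ∧ x ∈ pth C f v) → (y ∉ C ∧ f y ∈ C ∧ y ∈ pth C f v) → x = y) := by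
  refine ⟨?_, ?_⟩
  · intro hv x h
    rw [pth_mem hv, List.mem_singleton] at h
    exact h.1 (h.2.2 ▸ hv)
  · refine hf.ind (P := fun v => ∀ x y, (x ∉ C ∧ f x ∈ C ∧ x ∈ pth C f v) →
      (y ∉ C ∧ f y ∈ C ∧ y ∈ pth C f v) → x = y) ?_ ?_ v
    · intro v hv x y hx _
      rw [pth_mem hv, List.mem_singleton] at hx
      exact absurd (hx.2.2 ▸ hv) hx.1
    · intro v hv ih x y hx hy
      rw [pth_not_mem hv (hf.hit v), List.mem_cons] at hx hy
      by_cases hfv : f v ∈ C
      · rw [pth_mem hfv, List.mem_singleton] at hx hy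
        have hx' : x = v := by
          rcases hx.2.2 with h | h
          · exact h
          · exact absurd (h ▸ hfv) hx.1
        have hy' : y = v := by
          rcases hy.2.2 with h | h
          · exact h
          · exact absurd (h ▸ hfv) hy.1
        rw [hx', hy']
      · have hx' : x ∈ pth C f (f v) := by
          rcases hx.2.2 with h | h
          · exact absurd (h ▸ hx.2.1) hfv
          · exact h
        have hy' : y ∈ pth C f (f v) := by
          rcases hy.2.2 with h | h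
          · exact absurd (h ▸ hy.2.1) hfv
          · exact h
        exact ih x y ⟨hx.1, hx.2.1, hx'⟩ ⟨hy.1, hy.2.1, hy'⟩

/-- the sum over the tops of the path of `v` has at most one term -/
lemma EB_sum_top {G : SimpleGraph V} {C : Finset V} {f : V → V} (hf : IsFor G C f) (v : V)
    (Q : Prop) (M : ℝ) (hM : 0 ≤ M) :
    ∑ x, ind (x ∉ C ∧ f x ∈ C) * (ind (x ∈ pth C f v ∧ Q) * M) ≤ ind (v ∉ C ∧ Q) * M := by
  classical
  obtain ⟨h1, h2⟩ := EB_top hf v
  by_cases hv : v ∈ C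
  · have : ∑ x, ind (x ∉ C ∧ f x ∈ C) * (ind (x ∈ pth C f v ∧ Q) * M) = 0 := by
      apply Finset.sum_eq_zero
      intro x _
      by_cases hx : x ∉ C ∧ f x ∈ C
      · have : ¬ (x ∈ pth C f v ∧ Q) := fun h => h1 hv x ⟨hx.1, hx.2, h.1⟩
        rw [EB_ind_false this]; ring
      · rw [EB_ind_false hx]; ring
    rw [this]
    exact mul_nonneg (EB_ind_nonneg _) hM
  · by_cases hQ : Q
    · rw [EB_ind_true (p := v ∉ C ∧ Q) ⟨hv, hQ⟩, one_mul]
      by_cases hex : ∃ x, x ∉ C ∧ f x ∈ C ∧ x ∈ pth C f v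
      · obtain ⟨x, hx⟩ := hex
        rw [Finset.sum_eq_single x]
        · have a1 := EB_ind_le_one (x ∉ C ∧ f x ∈ C)
          have a2 := EB_ind_le_one (x ∈ pth C f v ∧ Q)
          have a3 := EB_ind_nonneg (x ∉ C ∧ f x ∈ C)
          have a4 := EB_ind_nonneg (x ∈ pth C f v ∧ Q)
          calc ind (x ∉ C ∧ f x ∈ C) * (ind (x ∈ pth C f v ∧ Q) * M)
              ≤ 1 * (1 * M) := by
                apply mul_le_mul a1 _ (mul_nonneg a4 hM) zero_le_one
                exact mul_le_mul_of_nonneg_right a2 hM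
            _ = M := by ring
        · intro y _ hy
          by_cases hy2 : y ∉ C ∧ f y ∈ C
          · by_cases hy3 : y ∈ pth C f v ∧ Q
            · exact absurd (h2 y x ⟨hy2.1, hy2.2, hy3.1⟩ hx) hy
            · rw [EB_ind_false hy3]; ring
          · rw [EB_ind_false hy2]; ring
        · intro h; exact absurd (Finset.mem_univ x) h
      · have : ∑ x, ind (x ∉ C ∧ f x ∈ C) * (ind (x ∈ pth C f v ∧ Q) * M) = 0 := by
          apply Finset.sum_eq_zero
          intro x _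
          by_cases hx : x ∉ C ∧ f x ∈ C
          · have : ¬ (x ∈ pth C f v ∧ Q) := fun h => hex ⟨x, hx.1, hx.2, h.1⟩
            rw [EB_ind_false this]; ring
          · rw [EB_ind_false hx]; ring
        rw [this]; exact hM
    · have : ∑ x, ind (x ∉ C ∧ f x ∈ C) * (ind (x ∈ pth C f v ∧ Q) * M) = 0 := by
        apply Finset.sum_eq_zero
        intro x _
        have : ¬ (x ∈ pth C f v ∧ Q) := fun h => hQ h.2
        rw [EB_ind_false this]; ring
      rw [this]
      exact mul_nonneg (EB_ind_nonneg _) hM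

lemma EB_rt_mem_pth {G : SimpleGraph V} {C : Finset V} {f : V → V} (hf : IsFor G C f) (v : V) :
    rt C f v ∈ pth C f v := by
  refine hf.ind (P := fun v => rt C f v ∈ pth C f v) ?_ ?_ v
  · intro v hv; rw [rt_mem hv, pth_mem hv]; simp
  · intro v hv h
    rw [rt_not_mem hv (hf.hit v), pth_not_mem hv (hf.hit v)]
    exact List.mem_cons_of_mem _ h

/-- a point of `D` on the path of `u` to `D` is the root -/
lemma EB_eq_rt {G : SimpleGraph V} {D : Finset V} {g : V → V} (hg : IsFor G D g) (u x : V)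
    (hx : x ∈ pth D g u) (hxD : x ∈ D) : x = rt D g u := by
  revert hx
  refine hg.ind (P := fun u => x ∈ pth D g u → x = rt D g u) ?_ ?_ u
  · intro u hu h
    rw [pth_mem hu, List.mem_singleton] at h
    rw [rt_mem hu]; exact h
  · intro u hu ih h
    rw [pth_not_mem hu (hg.hit u), List.mem_cons] at h
    rw [rt_not_mem hu (hg.hit u)]
    rcases h with h | h
    · exact absurd (h ▸ hxD) hu
    · exact ih h

lemma EB_card_path {G : SimpleGraph V} {C : Finset V} {f : V → V} (hf : IsFor G C f) (v : V) :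
    ((dn C f v \ C).card) ≤ dep C f v := by
  have h1 : dn C f v \ C ⊆ (pth C f v).toFinset.erase (rt C f v) := by
    intro x hx
    rw [Finset.mem_sdiff, dn, Finset.mem_union] at hx
    rw [Finset.mem_erase]
    refine ⟨?_, ?_⟩
    · rintro rfl; exact hx.2 (hf.rt_mem_B v)
    · rcases hx.1 with h | h
      · exact absurd h hx.2
      · exact h
  have h2 := Finset.card_le_card h1
  rw [Finset.card_erase_of_mem (List.mem_toFinset.2 (EB_rt_mem_pth hf v))] at h2
  have h3 := List.toFinset_card_le (pth C f v)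
  rw [pth_length] at h3
  omega

/-- the tree hanging at the top `x` of the path of `v`, after gluing -/
lemma EB_hx (hG1 : G1_stmt) {G : SimpleGraph V} {C : Finset V} {f g : V → V}
    (hf : f ∈ fors G C) (v : V) (hcl : Cl C (dn C f v) f) (hg : g ∈ fors G (dn C f v))
    (ℓ : V → ℕ) (r w : ℕ) (x : V) (hxC : x ∉ C) (hxp : x ∈ pth C f v) :
    hx C ℓ r w (glue (dn C f v) f g) x ≤
      (dep C f v : ℝ) + nb (dn C f v) (dn C f v \ C) (lv C ℓ f) r w g := by
  classical
  obtain ⟨_, h2, h3, h4⟩ := hG1 V G C (dn C f v) f g hf hcl hg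
  have hf' := mem_fors.1 hf
  have hg' := mem_fors.1 hg
  have hxD : x ∈ dn C f v := by
    rw [dn, Finset.mem_union]; right; exact List.mem_toFinset.2 hxp
  have key : ∀ u, ind (x ∈ pth C (glue (dn C f v) f g) u ∧
      r ≤ lv C ℓ (glue (dn C f v) f g) u ∧ lv C ℓ (glue (dn C f v) f g) u < r + w) ≤
      ind (u ∈ dn C f v \ C) + ind (u ∉ dn C f v ∧ rt (dn C f v) g u ∈ dn C f v \ C ∧
        r ≤ lv (dn C f v) (lv C ℓ f) g u ∧ lv (dn C f v) (lv C ℓ f) g u < r + w) := by
    intro u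
    by_cases hp : x ∈ pth C (glue (dn C f v) f g) u ∧
      r ≤ lv C ℓ (glue (dn C f v) f g) u ∧ lv C ℓ (glue (dn C f v) f g) u < r + w
    · obtain ⟨p1, p2, p3⟩ := hp
      have hlv : lv C ℓ (glue (dn C f v) f g) u = lv (dn C f v) (lv C ℓ f) g u := by
        unfold lv
        rw [h2 u, h3 u]; omega
      rw [hlv] at p2 p3
      have hxr : x ∈ pth C f (rt (dn C f v) g u) := by
        rcases (h4 u x).1 p1 with h | h
        · rw [← EB_eq_rt hg' u x h hxD]; exact self_mem_pth _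
        · exact h
      have hrC : rt (dn C f v) g u ∉ C := by
        intro h
        rw [pth_mem h, List.mem_singleton] at hxr
        exact hxC (hxr ▸ h)
      have hrD := hg'.rt_mem_B u
      by_cases hu : u ∈ dn C f v
      · rw [rt_mem hu] at hrC
        rw [EB_ind_true (p := u ∈ dn C f v \ C) (Finset.mem_sdiff.2 ⟨hu, hrC⟩)]
        have a1 := EB_ind_le_one (x ∈ pth C (glue (dn C f v) f g) u ∧
          r ≤ lv C ℓ (glue (dn C f v) f g) u ∧ lv C ℓ (glue (dn C f v) f g) u < r + w)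
        have a2 := EB_ind_nonneg (u ∉ dn C f v ∧ rt (dn C f v) g u ∈ dn C f v \ C ∧
          r ≤ lv (dn C f v) (lv C ℓ f) g u ∧ lv (dn C f v) (lv C ℓ f) g u < r + w)
        linarith
      · rw [EB_ind_true (p := u ∉ dn C f v ∧ rt (dn C f v) g u ∈ dn C f v \ C ∧
          r ≤ lv (dn C f v) (lv C ℓ f) g u ∧ lv (dn C f v) (lv C ℓ f) g u < r + w)
          ⟨hu, Finset.mem_sdiff.2 ⟨hrD, hrC⟩, p2, p3⟩]
        have a1 := EB_ind_le_one (x ∈ pth C (glue (dn C f v) f g) u ∧
          r ≤ lv C ℓ (glue (dn C f v) f g) u ∧ lv C ℓ (glue (dn C f v) f g) u < r + w)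
        have a2 := EB_ind_nonneg (u ∈ dn C f v \ C)
        linarith
    · rw [EB_ind_false hp]
      exact add_nonneg (EB_ind_nonneg _) (EB_ind_nonneg _)
  have hsum := Finset.sum_le_sum (fun u (_ : u ∈ (Finset.univ : Finset V)) => key u)
  rw [Finset.sum_add_distrib] at hsum
  have hc : ∑ u, ind (u ∈ dn C f v \ C) = ((dn C f v \ C).card : ℝ) := by
    have e : ∀ u, ind (u ∈ dn C f v \ C) = if u ∈ dn C f v \ C then (1 : ℝ) else 0 := by
      intro u; unfold ind; split_ifs <;> rfl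
    simp_rw [e]
    rw [Finset.sum_ite_mem, Finset.univ_inter, Finset.sum_const, nsmul_eq_mul, mul_one]
  rw [hc] at hsum
  have hcard : ((dn C f v \ C).card : ℝ) ≤ dep C f v := by exact_mod_cast EB_card_path hf' v
  unfold hx nb
  linarith

lemma EB_hx_nonneg (C : Finset V) (ℓ : V → ℕ) (r w : ℕ) (f : V → V) (x : V) :
    0 ≤ hx C ℓ r w f x := Finset.sum_nonneg (fun _ _ => EB_ind_nonneg _)

/-- `max (h - b) 0 ≤ e^{-νb} h e^{νh}` -/
lemma EB_max {h b ν : ℝ} (hh : 0 ≤ h) (hν : 0 ≤ ν) (hb : 0 ≤ b) :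
    max (h - b) 0 ≤ Real.exp (-(ν * b)) * (h * Real.exp (ν * h)) := by
  have e : Real.exp (-(ν * b)) * (h * Real.exp (ν * h)) = h * Real.exp (ν * (h - b)) := by
    have : Real.exp (ν * (h - b)) = Real.exp (-(ν * b)) * Real.exp (ν * h) := by
      rw [← Real.exp_add]; congr 1; ring
    rw [this]; ring
  rw [e]
  by_cases hl : h ≤ b
  · rw [max_eq_right (by linarith)]; positivity
  · push Not at hl
    rw [max_eq_left (by linarith)]
    have : 1 ≤ Real.exp (ν * (h - b)) := by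
      rw [← Real.exp_zero]
      apply Real.exp_le_exp.2
      exact mul_nonneg hν (by linarith)
    nlinarith

/-- pointwise bound of the excess -/
lemma EB_exc (C : Finset V) (ℓ : V → ℕ) (r w : ℕ) (ν b : ℝ) (hν : 0 ≤ ν) (hb : 0 ≤ b)
    (f : V → V) :
    exc C ℓ r w b f ≤ Real.exp (-(ν * b)) * ∑ v, ∑ x, ind (x ∉ C ∧ f x ∈ C) *
      (ind (x ∈ pth C f v ∧ r ≤ lv C ℓ f v ∧ lv C ℓ f v < r + w) *
        Real.exp (ν * hx C ℓ r w f x)) := by
  rw [Finset.sum_comm]
  unfold exc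
  rw [Finset.mul_sum]
  apply Finset.sum_le_sum
  intro x _
  rw [← Finset.mul_sum, ← Finset.sum_mul]
  have h1 := EB_max (EB_hx_nonneg C ℓ r w f x) hν hb
  have h2 : ∑ v, ind (x ∈ pth C f v ∧ r ≤ lv C ℓ f v ∧ lv C ℓ f v < r + w) =
      hx C ℓ r w f x := rfl
  rw [h2]
  calc ind (x ∉ C ∧ f x ∈ C) * max (hx C ℓ r w f x - b) 0
      ≤ ind (x ∉ C ∧ f x ∈ C) *
        (Real.exp (-(ν * b)) * (hx C ℓ r w f x * Real.exp (ν * hx C ℓ r w f x))) :=
        mul_le_mul_of_nonneg_left h1 (EB_ind_nonneg _)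
    _ = _ := by ring

/-- the conditional expectation given the path of `v` -/
lemma EB_cond (hG1 : G1_stmt) (hG3 : G3_stmt) (hG4 : G4_stmt) (hEM : EM_stmt)
    {G : SimpleGraph V} {C : Finset V} {μ a : ℝ} {r w : ℕ} (hc : G.Connected) (hC : C.Nonempty)
    (ha : 0 ≤ a) (hμ : 0 ≤ μ) (hyp : Hyp G C μ a 0 r w) {ν : ℝ} (hν : 0 ≤ ν)
    (hνμ : ν * (1 + a) ≤ μ) (ℓ : V → ℕ) (v : V) :
    EF G C (fun f => ∑ x, ind (x ∉ C ∧ f x ∈ C) *
      (ind (x ∈ pth C f v ∧ r ≤ lv C ℓ f v ∧ lv C ℓ f v < r + w) *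
        Real.exp (ν * hx C ℓ r w f x))) ≤
    EF G C (fun f => ind (v ∉ C ∧ r ≤ lv C ℓ f v ∧ lv C ℓ f v < r + w) *
      Real.exp (μ * dep C f v)) := by
  classical
  obtain ⟨g1, g2, _, _, _⟩ := hG4 V G C
  rw [hG3 V G C (fun f => dn C f v) (g1 v) (fun f hf f' hf' h => (g2 v f hf f' hf' h).1)]
  apply EB_EF_mono
  intro f hf
  have hcl := g1 v f hf
  have hf' := mem_fors.1 hf
  -- the inner function
  have hin : EF G (dn C f v) (fun g => ∑ x, ind (x ∉ C ∧ glue (dn C f v) f g x ∈ C) *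
      (ind (x ∈ pth C (glue (dn C f v) f g) v ∧ r ≤ lv C ℓ (glue (dn C f v) f g) v ∧
        lv C ℓ (glue (dn C f v) f g) v < r + w) *
        Real.exp (ν * hx C ℓ r w (glue (dn C f v) f g) x))) ≤
      EF G (dn C f v) (fun g => (∑ x, ind (x ∉ C ∧ f x ∈ C) *
        (ind (x ∈ pth C f v ∧ (r ≤ lv C ℓ f v ∧ lv C ℓ f v < r + w)) *
          Real.exp (ν * dep C f v))) *
            Real.exp (ν * nb (dn C f v) (dn C f v \ C) (lv C ℓ f) r w g)) := by
    apply EB_EF_mono
    intro g hg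
    obtain ⟨k1, _, _, _⟩ := hG1 V G C (dn C f v) f g hf hcl hg
    have hag : ∀ x ∈ dn C f v, glue (dn C f v) f g x = f x := by
      intro x hx; unfold glue; rw [if_pos hx]
    obtain ⟨_, m2, m3, m4⟩ := g2 v f hf _ k1 hag
    have hlv : lv C ℓ (glue (dn C f v) f g) v = lv C ℓ f v := by
      unfold lv; rw [m3, m4]
    rw [m2, hlv, Finset.sum_mul]
    apply Finset.sum_le_sum
    intro x _
    by_cases hp : x ∈ pth C f v ∧ (r ≤ lv C ℓ f v ∧ lv C ℓ f v < r + w)
    · have hxD : x ∈ dn C f v := by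
        rw [dn, Finset.mem_union]; right; exact List.mem_toFinset.2 hp.1
      rw [hag x hxD]
      by_cases hq : x ∉ C ∧ f x ∈ C
      · rw [EB_ind_true hq, EB_ind_true hp]
        have := EB_hx hG1 hf v hcl hg ℓ r w x hq.1 hp.1
        have h5 : Real.exp (ν * hx C ℓ r w (glue (dn C f v) f g) x) ≤
            Real.exp (ν * dep C f v) *
              Real.exp (ν * nb (dn C f v) (dn C f v \ C) (lv C ℓ f) r w g) := by
          rw [← Real.exp_add]
          apply Real.exp_le_exp.2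
          have := mul_le_mul_of_nonneg_left this hν
          linarith
        linarith
      · rw [EB_ind_false hq]; simp
    · rw [EB_ind_false hp]; simp
  refine hin.trans ?_
  rw [EB_EF_mul]
  have hA : 0 ≤ ∑ x, ind (x ∉ C ∧ f x ∈ C) *
        (ind (x ∈ pth C f v ∧ (r ≤ lv C ℓ f v ∧ lv C ℓ f v < r + w)) *
          Real.exp (ν * dep C f v)) :=
    Finset.sum_nonneg (fun _ _ => mul_nonneg (EB_ind_nonneg _)
      (mul_nonneg (EB_ind_nonneg _) (Real.exp_pos _).le))
  have hE := hEM V G C μ a 0 r w hc hC ha le_rfl hμ hyp ν hν hνμ (dn C f v)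
    (Finset.subset_union_left) (dn C f v \ C) Finset.sdiff_subset (lv C ℓ f)
  refine (mul_le_mul_of_nonneg_left hE hA).trans ?_
  have hT := EB_sum_top hf' v (r ≤ lv C ℓ f v ∧ lv C ℓ f v < r + w)
    (Real.exp (ν * dep C f v)) (Real.exp_pos _).le
  refine (mul_le_mul_of_nonneg_right hT (Real.exp_pos _).le).trans ?_
  rw [mul_assoc, ← Real.exp_add]
  apply mul_le_mul_of_nonneg_left _ (EB_ind_nonneg _)
  apply Real.exp_le_exp.2
  have hcard : ((dn C f v \ C).card : ℝ) ≤ dep C f v := by exact_mod_cast EB_card_path hf' v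
  have hd : (0 : ℝ) ≤ dep C f v := Nat.cast_nonneg _
  have e1 : ν * (dep C f v : ℝ) + ν * (a * ((dn C f v \ C).card : ℝ) + 0) ≤
      ν * (1 + a) * dep C f v := by
    have := mul_le_mul_of_nonneg_left hcard (mul_nonneg hν ha)
    linarith
  exact e1.trans (mul_le_mul_of_nonneg_right hνμ hd)

theorem EB (hG1 : G1_stmt) (hG3 : G3_stmt) (hG4 : G4_stmt) (hEM : EM_stmt) : EB_stmt := by
  intro V _ _ G C μ a r w hc hC ha hμ hyp ν b hν hνμ hb ℓ
  classical
  have h1 : EF G C (exc C ℓ r w b) ≤ EF G C (fun f => Real.exp (-(ν * b)) *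
      ∑ v, ∑ x, ind (x ∉ C ∧ f x ∈ C) *
      (ind (x ∈ pth C f v ∧ r ≤ lv C ℓ f v ∧ lv C ℓ f v < r + w) *
        Real.exp (ν * hx C ℓ r w f x))) :=
    EB_EF_mono (fun f _ => EB_exc C ℓ r w ν b hν hb f)
  rw [EB_EF_mul, EB_EF_sum Finset.univ] at h1
  have h2 : ∑ v, EF G C (fun f => ∑ x, ind (x ∉ C ∧ f x ∈ C) *
      (ind (x ∈ pth C f v ∧ r ≤ lv C ℓ f v ∧ lv C ℓ f v < r + w) *
        Real.exp (ν * hx C ℓ r w f x))) ≤
      ∑ v, EF G C (fun f => ind (v ∉ C ∧ r ≤ lv C ℓ f v ∧ lv C ℓ f v < r + w) *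
        Real.exp (μ * dep C f v)) :=
    Finset.sum_le_sum (fun v _ => EB_cond hG1 hG3 hG4 hEM hc hC ha hμ hyp hν hνμ ℓ v)
  have h3 : EF G C (fun f => ∑ v, ind (v ∉ C ∧ r ≤ lv C ℓ f v ∧ lv C ℓ f v < r + w) *
        Real.exp (μ * dep C f v)) ≤
      EF G C (ew C (C.filter (fun y => ℓ y < r + w)) ℓ r w μ) := by
    apply EB_EF_mono
    intro f hf
    apply Finset.sum_le_sum
    intro v _
    apply mul_le_mul_of_nonneg_right _ (Real.exp_pos _).le
    apply EB_ind_mono
    rintro ⟨p1, p2, p3⟩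
    refine ⟨p1, ?_, p2, p3⟩
    rw [Finset.mem_filter]
    refine ⟨(mem_fors.1 hf).rt_mem_B v, ?_⟩
    unfold lv at p3
    omega
  rw [EB_EF_sum Finset.univ] at h3
  have h4 := hyp C (Finset.Subset.refl C) (C.filter (fun y => ℓ y < r + w))
    (Finset.filter_subset _ _) ℓ
  have h5 := (h2.trans h3).trans h4
  have h6 := mul_le_mul_of_nonneg_left h5 (Real.exp_pos (-(ν * b))).le
  refine h1.trans (h6.trans (le_of_eq ?_))
  ring

end Pool.Agent.helper90.FN
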