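import Pool.Agent.helper90.FN.Spec

set_option autoImplicit false

open scoped BigOperators Topology

namespace Pool.Agent.helper90.FN

open Finset
open Pool.Agent.helper72.UT (IsFor dep pth rt fors Reg lz)
open Pool.Agent.helper20.HP (ind HW W Par cc run lel lst lazyP tmix ustE height vol Setup CZ CP IsKer)

lemma CC_log2 : (1 / 2 : ℝ) ≤ Real.log 2 := by
  have := Real.log_two_gt_d9
  linarith

lemma CC_MC {θ : ℝ} (h : 1 ≤ θ) : 0 ≤ MC θ := by
  unfold MC CZ
  positivity

/-- the arithmetic of the constants -/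
lemma CC_arith {a u h L card lam F x E1 E2 : ℝ} (ha : 0 ≤ a) (hu : 0 < u) (hh : 1 ≤ h)
    (hL : 1 / 2 ≤ L) (hc : 0 ≤ card) (hlam : 0 < lam)
    (h1 : E1 ≤ a * card * Real.exp (-(L / (2 * h * (1 + a)) * (u * (1 + a) * (4 * h)))))
    (h2 : E2 ≤ a * card * Real.exp (-(L / (2 * h * (1 + a)) * (u * (1 + a) * (4 * h) / 2)))) :
    2 * Real.exp (-(lam * x) + F * lam ^ 2 * (u * (1 + a) * (4 * h)))
        + lam * Real.exp (lam * F) * E1 + 2 / (u * (1 + a) * (4 * h)) * E2 ≤
      2 * Real.exp (-(lam * x) + F * lam ^ 2 * (u * (1 + a) * (4 * h)))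
        + (lam * Real.exp (lam * F) * Real.exp (-u) * a + 1 / (2 * u * h) * Real.exp (-(u / 2)))
          * card := by
  have ha1 : 0 < 1 + a := by linarith
  have hh0 : 0 < h := by linarith
  have e1 : L / (2 * h * (1 + a)) * (u * (1 + a) * (4 * h)) = 2 * L * u := by
    field_simp; ring
  have e2 : L / (2 * h * (1 + a)) * (u * (1 + a) * (4 * h) / 2) = L * u := by
    field_simp; ring
  rw [e1] at h1
  rw [e2] at h2
  have g1 : Real.exp (-(2 * L * u)) ≤ Real.exp (-u) := by
    apply Real.exp_le_exp.2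
    nlinarith
  have g2 : Real.exp (-(L * u)) ≤ Real.exp (-(u / 2)) := by
    apply Real.exp_le_exp.2
    nlinarith
  have hac : 0 ≤ a * card := mul_nonneg ha hc
  have k1 : E1 ≤ a * card * Real.exp (-u) := h1.trans (mul_le_mul_of_nonneg_left g1 hac)
  have k2 : E2 ≤ a * card * Real.exp (-(u / 2)) := h2.trans (mul_le_mul_of_nonneg_left g2 hac)
  have c1 : 0 ≤ lam * Real.exp (lam * F) := by positivity
  have p1 : lam * Real.exp (lam * F) * E1 ≤ lam * Real.exp (lam * F) * (a * card * Real.exp (-u)) :=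
    mul_le_mul_of_nonneg_left k1 c1
  have c2 : 0 ≤ 2 / (u * (1 + a) * (4 * h)) := by positivity
  have p2 : 2 / (u * (1 + a) * (4 * h)) * E2 ≤
      2 / (u * (1 + a) * (4 * h)) * (a * card * Real.exp (-(u / 2))) :=
    mul_le_mul_of_nonneg_left k2 c2
  have p3 : 2 / (u * (1 + a) * (4 * h)) * (a * card * Real.exp (-(u / 2))) ≤
      1 / (2 * u * h) * Real.exp (-(u / 2)) * card := by
    have q : 2 / (u * (1 + a) * (4 * h)) * a ≤ 1 / (2 * u * h) := by
      rw [div_mul_eq_mul_div, div_le_div_iff₀ (by positivity) (by positivity)]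
      nlinarith [mul_pos hu hh0, mul_nonneg ha (mul_pos hu hh0).le]
    calc 2 / (u * (1 + a) * (4 * h)) * (a * card * Real.exp (-(u / 2)))
        = (2 / (u * (1 + a) * (4 * h)) * a) * (card * Real.exp (-(u / 2))) := by ring
      _ ≤ (1 / (2 * u * h)) * (card * Real.exp (-(u / 2))) :=
        mul_le_mul_of_nonneg_right q (by positivity)
      _ = _ := by ring
  have e3 : lam * Real.exp (lam * F) * (a * card * Real.exp (-u)) =
      lam * Real.exp (lam * F) * Real.exp (-u) * a * card := by ring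
  have := add_le_add p1 (p2.trans p3)
  rw [e3] at this
  linarith

theorem CC (hTL : TL_stmt) (hEB : EB_stmt) (hHY : HY1_stmt) : CC_stmt := by
  intro V _ _ G d K θ h₀ h hR hK hP hh hn C hC hH ℓ r w lam x F u hu hlam hx hb hF
  have hh1 : 1 ≤ h := by have := hP.h_pos; omega
  have hhR : (1 : ℝ) ≤ h := by exact_mod_cast hh1
  have hM : 0 ≤ MC θ := CC_MC hP.one_le
  have ha : 0 ≤ MC θ * w := mul_nonneg hM (Nat.cast_nonneg w)
  have hyp := hHY V G d K θ h₀ h hR hK hP hh hn C hC hH r w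
  set a : ℝ := MC θ * w with hadef
  have ha1 : 0 < 1 + a := by linarith
  have hbpos : 0 < u * (1 + a) * (4 * h) := by positivity
  have hμ : 0 ≤ Real.log 2 / (2 * h) := by
    have := CC_log2
    positivity
  have hν : 0 ≤ Real.log 2 / (2 * h * (1 + a)) := by
    have := CC_log2
    positivity
  have hνμ : Real.log 2 / (2 * h * (1 + a)) * (1 + a) ≤ Real.log 2 / (2 * h) := by
    apply le_of_eq
    field_simp
  have h1 := hEB V G C _ a r w hR.conn hC ha hμ hyp (Real.log 2 / (2 * h * (1 + a)))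
    (u * (1 + a) * (4 * h)) hν hνμ hbpos.le ℓ
  have h2 := hEB V G C _ a r w hR.conn hC ha hμ hyp (Real.log 2 / (2 * h * (1 + a)))
    (u * (1 + a) * (4 * h) / 2) hν hνμ (by linarith) ℓ
  have h3 := hTL V G C ℓ r w (u * (1 + a) * (4 * h)) lam x F hR.conn hC hbpos hlam hb hx hF
  refine h3.trans ?_
  exact CC_arith ha hu hhR CC_log2 (Nat.cast_nonneg _) hlam h1 h2

end Pool.Agent.helper90.FN
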