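import Pool.Agent.helper90.FN.Spec

set_option autoImplicit false

open scoped BigOperators Topology

namespace Pool.Agent.helper90.FN

open Finset
open Pool.Agent.helper72.UT (IsFor dep pth rt fors rt_mem dep_mem pth_mem rt_not_mem dep_not_mem
  pth_not_mem self_mem_pth)

lemma G1_fors {V : Type} [Fintype V] [DecidableEq V] {G : SimpleGraph V} {B : Finset V} {f : V → V} :
    f ∈ fors G B ↔ IsFor G B f := by
  classical
  simp [fors]

lemma G1_glue_mem {V : Type} [DecidableEq V] {D : Finset V} {q g : V → V} {x : V} (h : x ∈ D) :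
    glue D q g x = q x := by simp [glue, h]

lemma G1_glue_not_mem {V : Type} [DecidableEq V] {D : Finset V} {q g : V → V} {x : V} (h : x ∉ D) :
    glue D q g x = g x := by simp [glue, h]

lemma G1_iter {V : Type} [DecidableEq V] {D : Finset V} {q g : V → V} (hD : ∀ x ∈ D, q x ∈ D) :
    ∀ (k : ℕ) (x : V), x ∈ D → (glue D q g)^[k] x = q^[k] x := by
  intro k
  induction k with
  | zero => intro x _; rfl
  | succ k ih =>
    intro x hx
    rw [Function.iterate_succ_apply, Function.iterate_succ_apply, G1_glue_mem hx]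
    exact ih (q x) (hD x hx)

lemma G1_isFor {V : Type} [Fintype V] [DecidableEq V] {G : SimpleGraph V} {C D : Finset V}
    {q g : V → V} (hq : IsFor G C q) (hC : Cl C D q) (hg : IsFor G D g) :
    IsFor G C (glue D q g) := by
  refine ⟨?_, ?_, ?_⟩
  · intro v hv
    rw [G1_glue_mem (hC.sub hv)]
    exact hq.fix v hv
  · intro v hv
    by_cases hd : v ∈ D
    · rw [G1_glue_mem hd]; exact hq.adj v hv
    · rw [G1_glue_not_mem hd]; exact hg.adj v hd
  · intro v
    refine hg.ind (P := fun v => ∃ k, (glue D q g)^[k] v ∈ C) ?_ ?_ v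
    · intro v hv
      obtain ⟨k, hk⟩ := hq.hit v
      exact ⟨k, by rw [G1_iter hC.map k v hv]; exact hk⟩
    · intro v hv h
      obtain ⟨k, hk⟩ := h
      exact ⟨k + 1, by rw [Function.iterate_succ_apply, G1_glue_not_mem hv]; exact hk⟩

theorem G1 : G1_stmt := by
  intro V _ _ G C D q g hq hC hg
  rw [G1_fors] at hq hg
  have hf := G1_isFor hq hC hg
  have key : ∀ v, v ∈ D → (rt C (glue D q g) v = rt C q v ∧ dep C (glue D q g) v = dep C q v ∧
      pth C (glue D q g) v = pth C q v) := by
    intro v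
    refine hq.ind (P := fun v => v ∈ D → (rt C (glue D q g) v = rt C q v ∧
      dep C (glue D q g) v = dep C q v ∧ pth C (glue D q g) v = pth C q v)) ?_ ?_ v
    · intro v hv _
      rw [rt_mem hv, rt_mem hv, dep_mem hv, dep_mem hv, pth_mem hv, pth_mem hv]
      exact ⟨rfl, rfl, rfl⟩
    · intro v hv ih hd
      obtain ⟨h1, h2, h3⟩ := ih (hC.map v hd)
      rw [rt_not_mem hv (hf.hit v), rt_not_mem hv (hq.hit v), dep_not_mem hv (hf.hit v),
        dep_not_mem hv (hq.hit v), pth_not_mem hv (hf.hit v), pth_not_mem hv (hq.hit v),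
        G1_glue_mem hd]
      exact ⟨h1, by rw [h2], by rw [h3]⟩
  have main : ∀ v, (rt C (glue D q g) v = rt C q (rt D g v)) ∧
      (dep C (glue D q g) v = dep D g v + dep C q (rt D g v)) ∧
      (∀ x, x ∈ pth C (glue D q g) v ↔ (x ∈ pth D g v ∨ x ∈ pth C q (rt D g v))) := by
    intro v
    refine hg.ind (P := fun v => (rt C (glue D q g) v = rt C q (rt D g v)) ∧
      (dep C (glue D q g) v = dep D g v + dep C q (rt D g v)) ∧
      (∀ x, x ∈ pth C (glue D q g) v ↔ (x ∈ pth D g v ∨ x ∈ pth C q (rt D g v)))) ?_ ?_ v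
    · intro v hv
      obtain ⟨h1, h2, h3⟩ := key v hv
      rw [rt_mem (f := g) hv, dep_mem (f := g) hv, pth_mem (f := g) hv, h1, h2, h3]
      refine ⟨rfl, by omega, ?_⟩
      intro x
      constructor
      · intro h; exact Or.inr h
      · rintro (h | h)
        · rw [List.mem_singleton] at h
          subst h
          exact self_mem_pth _
        · exact h
    · intro v hv ih
      have hvC : v ∉ C := fun h => hv (hC.sub h)
      obtain ⟨h1, h2, h3⟩ := ih
      rw [rt_not_mem hvC (hf.hit v), rt_not_mem hv (hg.hit v), dep_not_mem hvC (hf.hit v),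
        dep_not_mem hv (hg.hit v), pth_not_mem hvC (hf.hit v), pth_not_mem hv (hg.hit v),
        G1_glue_not_mem hv]
      refine ⟨h1, by rw [h2]; omega, ?_⟩
      intro x
      rw [List.mem_cons, List.mem_cons, h3 x, or_assoc]
  refine ⟨G1_fors.2 hf, fun v => (main v).1, fun v => (main v).2.1, fun v => (main v).2.2⟩

end Pool.Agent.helper90.FN
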